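import Mathlib

set_option autoImplicit false

namespace Pool.Agent.Results.MP_8bdd73_co.Bound

/-- a broadcast: `1` on isolated vertices, otherwise at most the eccentricity of `v` in its
component -/
def Broadcast {V : Type} (G : SimpleGraph V) (f : V → ℕ) : Prop :=
  ∀ v, ((∀ u, ¬ G.Adj v u) → f v = 1) ∧
    ((∃ u, G.Adj v u) → ∃ u, G.Reachable v u ∧ f v ≤ G.dist v u)

/-- boundary independence -/
def BnIndep {V : Type} (G : SimpleGraph V) (f : V → ℕ) : Prop :=
  ∀ u v, u ≠ v → 0 < f u → 0 < f v → ∀ x, G.edist x u ≤ f u → G.edist x v ≤ f v →
    G.edist x u = f u ∧ G.edist x v = f v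

lemma levels {V : Type} (G : SimpleGraph V) (v : V) (k : ℕ) :
    ∀ u, G.edist u v = k → ∀ j ≤ k, ∃ x, G.edist x v = j := by
  induction k with
  | zero => intro u h j hj; exact ⟨u, by rw [h, Nat.le_zero.1 hj]⟩
  | succ k ih =>
    intro u h j hj
    rcases Nat.lt_or_ge j (k + 1) with c | c
    · obtain ⟨p, hp⟩ := SimpleGraph.exists_walk_of_edist_eq_coe h
      cases p with
      | nil => simp at hp
      | @cons _ y _ a q =>
        refine ih y (le_antisymm ?_ ?_) j (by omega)
        · have := SimpleGraph.edist_le q
          rwa [show q.length = k by simpa using hp] at this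
        · have t := SimpleGraph.edist_triangle (G := G) (u := u) (v := y) (w := v)
          rw [h, SimpleGraph.edist_eq_one_iff_adj.2 a, add_comm 1, Nat.cast_succ] at t
          exact (ENat.add_le_add_iff_right ENat.one_ne_top).1 t
    · exact ⟨u, by rw [h, show j = k + 1 by omega]⟩

theorem result {V : Type} [Fintype V] (G : SimpleGraph V) [DecidableRel G.Adj] (f : V → ℕ)
    (hb : Broadcast G f) (hi : BnIndep G f) : ∑ v, f v ≤ Fintype.card V - G.minDegree := by
  classical
  by_cases h0 : ∀ v, f v = 0
  · simp [h0]
  obtain ⟨v0, hv0⟩ := not_forall.1 h0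
  have lv : ∀ v, (∃ u, G.Adj v u) → ∃ x : ℕ → V, ∀ j ≤ f v, G.edist (x j) v = j := fun v h => by
    obtain ⟨u, r, l⟩ := (hb v).2 h
    have := levels G v _ u (by rw [SimpleGraph.edist_comm, r.coe_dist_eq_edist])
    have hV : Nonempty V := ⟨v⟩
    choose! x hx using this
    exact ⟨x, fun j hj => hx j (hj.trans l)⟩
  let S : V → Finset V := fun v => if v = v0 then Finset.univ.filter fun x => G.edist x v ≤ f v
    else Finset.univ.filter fun x => G.edist x v < f v
  have c1 : ∀ v, f v + (if v = v0 then G.minDegree else 0) ≤ (S v).card := fun v => by
    by_cases h : ∃ u, G.Adj v u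
    · obtain ⟨x, hx⟩ := lv v h
      have inj : ∀ i ≤ f v, ∀ j ≤ f v, x i = x j → i = j := fun i hi j hj e => by
        have := hx i hi
        rw [e, hx j hj] at this
        exact_mod_cast this.symm
      by_cases e : v = v0
      · subst e
        simp only [S, if_true]
        have h1 : (((Finset.range (f v + 1)).erase 1).image x).card = f v := by
          rw [Finset.card_image_of_injOn fun i hi j hj e => inj i (by simp at hi; omega) j
            (by simp at hj; omega) e, Finset.card_erase_of_mem (by simp; omega)]
          simp
        have h2 : Disjoint (((Finset.range (f v + 1)).erase 1).image x) (G.neighborFinset v) := by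
          rw [Finset.disjoint_left]
          intro y hy hy'
          obtain ⟨j, hj, rfl⟩ := Finset.mem_image.1 hy
          have a := SimpleGraph.edist_eq_one_iff_adj.2 ((G.mem_neighborFinset _ _).1 hy').symm
          simp only [Finset.mem_erase, Finset.mem_range] at hj
          rw [hx j (by omega)] at a
          exact hj.1 (by exact_mod_cast a)
        have h3 := G.minDegree_le_degree v
        refine le_trans ?_ (Finset.card_le_card (s := ((Finset.range (f v + 1)).erase 1).image x ∪
          G.neighborFinset v) fun y hy => ?_)
        · rw [Finset.card_union_of_disjoint h2, h1, G.card_neighborFinset_eq_degree]; omega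
        · simp only [Finset.mem_filter, Finset.mem_univ, true_and]
          rcases Finset.mem_union.1 hy with hy | hy
          · obtain ⟨j, hj, rfl⟩ := Finset.mem_image.1 hy
            simp only [Finset.mem_erase, Finset.mem_range] at hj
            rw [hx j (by omega)]
            exact_mod_cast (by omega : j ≤ f v)
          · rw [SimpleGraph.edist_eq_one_iff_adj.2 ((G.mem_neighborFinset _ _).1 hy).symm]
            exact_mod_cast (by omega : 1 ≤ f v)
      · simp only [S, if_neg e, add_zero]
        have := Finset.card_le_card_of_injOn (s := Finset.range (f v))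
          (t := Finset.univ.filter fun y => G.edist y v < f v) x (fun j hj => by
            have hj : j < f v := by simpa using hj
            simp only [Finset.coe_filter, Finset.mem_univ, true_and, Set.mem_ofPred_eq]
            rw [hx j hj.le]
            exact_mod_cast hj)
          (fun i hi j hj e => inj i (by simp at hi; omega) j (by simp at hj; omega) e)
        simpa using this
    · have h' : ∀ u, ¬ G.Adj v u := not_exists.1 h
      have h1 := (hb v).1 h'
      have h2 : G.minDegree = 0 := by
        have := G.minDegree_le_degree v
        have : G.degree v = 0 := by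
          rw [← G.card_neighborFinset_eq_degree, Finset.card_eq_zero]
          ext u; simp [h' u]
        omega
      have : v ∈ S v := by
        simp only [S]
        split_ifs <;> simp [h1]
      have := Finset.card_pos.2 ⟨v, this⟩
      rw [h1, h2]
      simpa using this
  have c2 : ((Finset.univ : Finset V) : Set V).PairwiseDisjoint S := by
    intro u _ v _ huv
    rw [Function.onFun, Finset.disjoint_left]
    intro y hu hv
    have k : ∀ w, y ∈ S w → G.edist y w ≤ f w ∧ 0 < f w ∧ (w ≠ v0 → G.edist y w < f w) := fun w h => by
      simp only [S] at h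
      split_ifs at h with e
      · exact ⟨by simpa using h, by rw [e]; omega, fun n => absurd e n⟩
      · have h : G.edist y w < f w := by simpa using h
        exact ⟨h.le, by exact_mod_cast lt_of_le_of_lt (zero_le) h, fun _ => h⟩
    obtain ⟨a1, a2, a3⟩ := k u hu
    obtain ⟨b1, b2, b3⟩ := k v hv
    obtain ⟨e1, e2⟩ := hi u v huv a2 b2 y a1 b1
    by_cases e : u = v0
    · exact (b3 fun n => huv (e.trans n.symm)).ne e2
    · exact (a3 e).ne e1
  have c3 := Finset.card_le_univ (Finset.univ.biUnion S)
  rw [Finset.card_biUnion c2] at c3
  have c4 := Finset.sum_le_sum fun v (_ : v ∈ Finset.univ) => c1 v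
  rw [Finset.sum_add_distrib, Finset.sum_ite_eq' Finset.univ v0] at c4
  simp only [Finset.mem_univ, if_true] at c4
  omega

end Pool.Agent.Results.MP_8bdd73_co.Bound
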